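import Pool.Agent.L5helper12.CV.Defs

/-! The flat test function (second half of CV13). -/

set_option autoImplicit false

open Filter Topology Set MeasureTheory Complex H370

namespace Pool.Agent.L5helper18.CV

open Pool.Agent.L5helper10.TV hiding GG
open Pool.Agent.L5helper12.PV
open Pool.Agent.L5helper12.TW (T4 T4_fav Mont)
open Pool.Agent.Y744 (mz mz_nonneg Zb mem_Zb QS Xf Xf_pos Q2 TK ct AG Kav fav Aa Aa_int Nr pr Nr_all)

lemma sinc_ge {x : ℝ} (h0 : 0 ≤ x) (h1 : x ≤ 1) : 3 / 4 ≤ Real.sinc x := by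
  rcases h0.eq_or_lt with h | h
  · rw [← h, Real.sinc_zero]
    norm_num
  · rw [Real.sinc_of_ne_zero h.ne', le_div_iff₀ h]
    have h2 := Real.sin_gt_sub_cube h
    have h3 : x ^ 3 ≤ x := by
      calc x ^ 3 = x * (x * x) := by ring
        _ ≤ x * (1 * 1) := by gcongr
        _ = x := by ring
    linarith

lemma sinc_abs_ge {x : ℝ} (h1 : |x| ≤ 1) : 3 / 4 ≤ Real.sinc x := by
  have h2 := sinc_ge (abs_nonneg x) h1
  rcases abs_choice x with h | h
  · rwa [h] at h2
  · rwa [h, Real.sinc_neg] at h2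

theorem test_flat (ℓ : ℕ) :
    ∃ (κ h c : ℝ) (K : ℝ → ℝ) (M : ℕ) (C B : ℝ), 0 < κ ∧ 0 < h ∧ 0 < c ∧ TK κ K ∧ κ + 1 ≤ M ∧
      KW (Kav K h) M C B ∧ (∀ α : ℝ, 0 ≤ α → α ≤ ℓ + 2 → 1 ≤ c * Kav K h α) := by
  have hℓ : (0 : ℝ) ≤ ℓ := Nat.cast_nonneg ℓ
  have hpi := Real.pi_pos
  let f : ContDiffBump (0 : ℝ) := ⟨ℓ + 2, ℓ + 3, by positivity, by linarith⟩
  have hK : TK (ℓ + 3) f := by
    refine ⟨f.contDiff, fun x => f.neg x, fun x hx => ?_⟩
    apply f.zero_of_le_dist
    rw [dist_zero_right, Real.norm_eq_abs]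
    exact hx.le
  set h : ℝ := 1 / (2 * Real.pi * (ℓ + 3)) with hh
  have hh0 : 0 < h := by positivity
  have harg : ∀ α : ℝ, |α| ≤ ℓ + 3 → |2 * Real.pi * h * α| ≤ 1 := by
    intro α hα
    rw [abs_mul, abs_of_pos (by positivity : 0 < 2 * Real.pi * h)]
    calc 2 * Real.pi * h * |α| ≤ 2 * Real.pi * h * (ℓ + 3) :=
          mul_le_mul_of_nonneg_left hα (by positivity)
      _ = 1 := by rw [hh]; field_simp
  obtain ⟨C, hC⟩ := Pool.Agent.L5helper12.TW.Kav_lip hK hh0
  refine ⟨ℓ + 3, h, 2 / (3 * h), f, ℓ + 4, C, 2 * h, by positivity, hh0, by positivity, hK, ?_, ?_, ?_⟩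
  · push_cast
    linarith
  · refine ⟨fun α => ?_, hC, fun α hα => ?_, fun α => ?_⟩
    · unfold Kav
      by_cases hα : |α| ≤ ℓ + 3
      · have := sinc_abs_ge (harg α hα)
        have h2 := f.nonneg (x := α)
        positivity
      · rw [hK.supp α (not_le.mp hα), zero_mul]
    · apply Pool.Agent.Y744.Kav_supp hK
      push_cast at hα
      have := le_abs_self α
      linarith
    · unfold Kav
      have h1 : f α ≤ 1 := f.le_one
      have h2 := f.nonneg (x := α)
      have h3 : Real.sinc (2 * Real.pi * h * α) ≤ 1 := Real.sinc_le_one _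
      calc f α * (2 * h * Real.sinc (2 * Real.pi * h * α)) ≤ f α * (2 * h * 1) := by gcongr
        _ ≤ 1 * (2 * h * 1) := by gcongr
        _ = 2 * h := by ring
  · intro α h0 h1
    have hα : |α| ≤ ℓ + 2 := by rwa [abs_of_nonneg h0]
    have hf : f α = 1 := by
      apply f.one_of_mem_closedBall
      rw [Metric.mem_closedBall, dist_zero_right, Real.norm_eq_abs]
      exact hα
    unfold Kav
    rw [hf, one_mul]
    have h2 := sinc_abs_ge (harg α (by linarith))
    calc (1 : ℝ) = 2 / (3 * h) * (2 * h * (3 / 4)) := by field_simp; norm_num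
      _ ≤ 2 / (3 * h) * (2 * h * Real.sinc (2 * Real.pi * h * α)) := by gcongr

end Pool.Agent.L5helper18.CV
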